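import Mathlib

set_option autoImplicit false

namespace Pool.Agent.Results.MP_af603d_lc.No

open Set Function

/-- strongly surjective: monotone surjections onto all nonempty suborders -/
def SS (L : Type) [LinearOrder L] : Prop :=
  ∀ K : Set L, K.Nonempty → ∃ f : L → K, Monotone f ∧ Surjective f

/-- separable in the order topology -/
def Sep (L : Type) [LinearOrder L] : Prop :=
  ∃ D : Set L, D.Countable ∧ @Dense L (Preorder.topology L) D

theorem three (S : Set (Fin 3)) (h : S.Nonempty) :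
    ∃ r : Fin 3 → Fin 3, Monotone r ∧ range r = S := by
  classical
  obtain ⟨S, rfl⟩ := S.toFinite.exists_finset_coe
  have : ∀ S : Finset (Fin 3), S.Nonempty → ∃ r : Fin 3 → Fin 3, (r 0 ≤ r 1 ∧ r 1 ≤ r 2) ∧
      Finset.univ.image r = S := by decide
  obtain ⟨r, r1, rfl⟩ := this S (by simpa using h)
  exact ⟨r, Fin.monotone_iff_le_succ.2 fun i => by fin_cases i; exacts [r1.1, r1.2], by simp⟩

theorem ss {L : Type} [LinearOrder L] (h : SS L) : SS (L ×ₗ Fin 3) := by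
  classical
  intro K ⟨k, hk⟩
  obtain ⟨f, f1, f2⟩ := h {x | ∃ i, toLex (x, i) ∈ K} ⟨(ofLex k).1, (ofLex k).2, hk⟩
  obtain ⟨p, hp⟩ := f2.hasRightInverse
  choose r r1 r2 using fun x : {x | ∃ i, toLex (x, i) ∈ K} => three {i | toLex (x.1, i) ∈ K} x.2
  let c : L ×ₗ Fin 3 → Fin 3 := fun z => if (ofLex z).1 < p (f (ofLex z).1) then 0 else
    if (ofLex z).1 = p (f (ofLex z).1) then (ofLex z).2 else 2
  refine ⟨fun z => ⟨toLex ((f (ofLex z).1).1, r _ (c z)), (r2 _).le ⟨_, rfl⟩⟩, fun z w hzw => ?_,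
    fun ⟨z, hz⟩ => ?_⟩
  · have h1 := Prod.Lex.le_iff.1 hzw
    have h2 : (ofLex z).1 ≤ (ofLex w).1 := h1.elim le_of_lt fun h => h.1.le
    refine Subtype.mk_le_mk.2 (Prod.Lex.toLex_le_toLex.2 ?_)
    rcases (f1 h2).lt_or_eq with h3 | h3
    · exact Or.inl h3
    refine Or.inr ⟨congrArg Subtype.val h3, ?_⟩
    simp only [c, h3]
    refine r1 _ ?_
    split_ifs with a1 a2 a3 a4 a5 a6 a7 a8 <;> try first | exact Fin.zero_le _ | exact Fin.le_last _
    · exact absurd (h2.trans_lt a5) a1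
    · exact h1.elim (fun h => absurd (a4.trans a6.symm) h.ne) fun h => h.2
    · exact absurd (h2.trans_lt a7) a1
    · exact absurd (h2.trans_eq a8) fun h => h.lt_or_eq.elim a1 a4
  · obtain ⟨i, hi⟩ := (r2 ⟨(ofLex z).1, (ofLex z).2, hz⟩).ge hz
    refine ⟨toLex (p ⟨(ofLex z).1, (ofLex z).2, hz⟩, i), Subtype.ext ?_⟩
    simp only [c, ofLex_toLex, hp _, lt_irrefl, if_false, if_true, hi]
    rfl

theorem result (L : Type) [LinearOrder L] (h1 : Uncountable L) (h2 : SS L) :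
    ∃ (M : Type) (_ : LinearOrder M), Uncountable M ∧ SS M ∧ ¬ Sep M := by
  refine ⟨L ×ₗ Fin 3, inferInstance, (show Injective fun x : L => toLex (x, (0 : Fin 3)) from
    fun _ _ h => congrArg (fun z => (ofLex z).1) h).uncountable, ss h2, fun ⟨D, d1, d2⟩ => ?_⟩
  letI := Preorder.topology (L ×ₗ Fin 3)
  have : OrderTopology (L ×ₗ Fin 3) := ⟨rfl⟩
  refine not_countable_univ ((d1.image fun z => (ofLex z).1).mono fun x _ => ?_)
  obtain ⟨z, ⟨z1, z2⟩, z3⟩ := d2.inter_open_nonempty _ (isOpen_Ioo (a := toLex (x, (0 : Fin 3)))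
    (b := toLex (x, 2))) ⟨toLex (x, 1), by simp [Prod.Lex.toLex_lt_toLex]⟩
  exact ⟨z, z3, le_antisymm ((Prod.Lex.lt_iff.1 z2).elim le_of_lt fun h => h.1.le)
    ((Prod.Lex.lt_iff.1 z1).elim le_of_lt fun h => h.1.le)⟩

end Pool.Agent.Results.MP_af603d_lc.No
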